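import Mathlib

set_option autoImplicit false

namespace Pool.H83Shunkov

open Subgroup

section basics

variable {G : Type*} [Group G] {G' : Type*} [Group G']

/-- `K` is locally finite: every finite subset of `K` generates a finite subgroup. -/
def IsLocFin (K : Subgroup G) : Prop :=
  ∀ S : Finset G, (S : Set G) ⊆ (K : Set G) →
    ((closure (S : Set G) : Subgroup G) : Set G).Finite

/-- Any two conjugates of `a` of the form `a`, `a ^ g` generate a finite subgroup. -/
def PairFinite (a : G) : Prop :=
  ∀ g : G, ((closure ({a, g⁻¹ * a * g} : Set G) : Subgroup G) : Set G).Finite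

theorem IsLocFin.mono {K L : Subgroup G} (h : K ≤ L) (hL : IsLocFin L) : IsLocFin K :=
  fun S hS => hL S (hS.trans h)

theorem isLocFin_of_finite {K : Subgroup G} (h : (K : Set G).Finite) : IsLocFin K :=
  fun _ hS => h.subset ((closure_le K).2 hS)

theorem IsLocFin.finite_of_fg {K : Subgroup G} (hK : IsLocFin K) (hfg : K.FG) :
    (K : Set G).Finite := by
  obtain ⟨S, hS⟩ := hfg
  have := hK S (by rw [← hS]; exact subset_closure)
  rwa [hS] at this

theorem fg_map {K : Subgroup G} (hK : K.FG) (f : G →* G') : (K.map f).FG := by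
  classical
  obtain ⟨S, hS⟩ := hK
  exact ⟨S.image f, by rw [← hS, MonoidHom.map_closure]; simp⟩

theorem mem_closure_finset {s : Set G} {x : G} (hx : x ∈ closure s) :
    ∃ t : Finset G, (t : Set G) ⊆ s ∧ x ∈ closure (t : Set G) := by
  classical
  induction hx using closure_induction with
  | mem x hx => exact ⟨{x}, by simpa using hx, subset_closure (by simp)⟩
  | one => exact ⟨∅, by simp, one_mem _⟩
  | mul x y _ _ hx hy =>
    obtain ⟨t, ht, hxt⟩ := hx
    obtain ⟨u, hu, hyu⟩ := hy
    refine ⟨t ∪ u, by simp [ht, hu], ?_⟩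
    exact mul_mem (closure_mono (by simp) hxt) (closure_mono (by simp) hyu)
  | inv x _ hx =>
    obtain ⟨t, ht, hxt⟩ := hx
    exact ⟨t, ht, inv_mem hxt⟩

theorem subset_closure_finset {s : Set G} (S : Finset G) (hS : (S : Set G) ⊆ closure s) :
    ∃ t : Finset G, (t : Set G) ⊆ s ∧ (S : Set G) ⊆ closure (t : Set G) := by
  classical
  induction S using Finset.induction_on with
  | empty => exact ⟨∅, by simp, by simp⟩
  | insert x S _ ih =>
    obtain ⟨t, ht, hSt⟩ := ih (fun y hy => hS (by
      simp only [Finset.coe_insert, Set.mem_insert_iff]; exact Or.inr hy))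
    obtain ⟨u, hu, hxu⟩ := mem_closure_finset (hS (show x ∈ ((insert x S : Finset G) : Set G) by simp))
    refine ⟨t ∪ u, by simp [ht, hu], ?_⟩
    intro y hy
    simp only [Finset.coe_insert, Set.mem_insert_iff] at hy
    rcases hy with rfl | hy
    · exact closure_mono (by simp) hxu
    · exact closure_mono (by simp) (hSt hy)

theorem IsLocFin.map {K : Subgroup G} (hK : IsLocFin K) (f : G →* G') : IsLocFin (K.map f) := by
  classical
  intro S hS
  choose! g hg using (show ∀ s, s ∈ (S : Set G') → ∃ k, k ∈ K ∧ f k = s from fun s hs => by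
    obtain ⟨k, hk, h⟩ := hS hs
    exact ⟨k, hk, h⟩)
  have h1 := hK (S.image g) (by
    intro x hx
    simp only [Finset.coe_image, Set.mem_image] at hx
    obtain ⟨s, hs, rfl⟩ := hx
    exact (hg s hs).1)
  have h2 : (closure (S : Set G')) ≤ (closure ((S.image g : Finset G) : Set G)).map f := by
    rw [closure_le]
    intro s hs
    exact ⟨g s, subset_closure (by simp only [Finset.coe_image]; exact ⟨s, hs, rfl⟩), (hg s hs).2⟩
  exact (h1.image f).subset (by intro x hx; exact h2 hx)

theorem IsLocFin.comap_of_injective {K : Subgroup G'} (hK : IsLocFin K) (f : G →* G')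
    (hf : Function.Injective f) : IsLocFin (K.comap f) := by
  classical
  intro S hS
  have h1 := hK (S.image f) (by
    intro x hx
    simp only [Finset.coe_image, Set.mem_image] at hx
    obtain ⟨s, hs, rfl⟩ := hx
    exact hS hs)
  refine Set.Finite.of_finite_image (f := f) (h1.subset ?_) hf.injOn
  have h2 : (closure (S : Set G)).map f = closure ((S.image f : Finset G') : Set G') := by
    rw [MonoidHom.map_closure]; simp
  rw [← h2]
  rintro x ⟨y, hy, rfl⟩
  exact ⟨y, hy, rfl⟩

/-- Schmidt: locally finite by locally finite is locally finite. -/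
theorem IsLocFin.of_map_quotient (N : Subgroup G) [N.Normal] (hN : IsLocFin N) {K : Subgroup G}
    (hK : IsLocFin (K.map (QuotientGroup.mk' N))) : IsLocFin K := by
  classical
  intro S hS
  set L : Subgroup G := closure (S : Set G) with hL
  have hLK : L ≤ K := (closure_le K).2 hS
  have hLfg : L.FG := ⟨S, rfl⟩
  have : Group.FG L := (Group.fg_iff_subgroup_fg L).2 hLfg
  let f : L →* G ⧸ N := (QuotientGroup.mk' N).comp L.subtype
  have hr : ((L.map (QuotientGroup.mk' N) : Subgroup (G ⧸ N)) : Set (G ⧸ N)).Finite := by
    apply (hK.mono (map_mono hLK)).finite_of_fg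
    exact fg_map hLfg _
  have hfr : f.range = L.map (QuotientGroup.mk' N) := by
    rw [MonoidHom.range_comp, Subgroup.range_subtype]
  have : Finite f.range := by
    rw [hfr]; exact hr.to_subtype
  have : f.ker.FiniteIndex := finiteIndex_ker f
  have : Group.FG f.ker := inferInstance
  have hker : ((f.ker.map L.subtype : Subgroup G) : Set G).Finite := by
    apply (hN.mono ?_).finite_of_fg
    · exact fg_map ((Group.fg_iff_subgroup_fg f.ker).1 inferInstance) _
    · rintro x ⟨y, hy, rfl⟩
      have : f y = 1 := hy
      simpa [f] using this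
  have : Finite f.ker := by
    have h3 : ((f.ker : Subgroup L) : Set L).Finite := by
      refine Set.Finite.of_finite_image (f := L.subtype) (hker.subset ?_) (L.subtype_injective.injOn)
      rintro x ⟨y, hy, rfl⟩
      exact ⟨y, hy, rfl⟩
    exact h3.to_subtype
  have : Finite (L ⧸ f.ker) := finiteIndex_iff_finite_quotient.1 inferInstance
  have : Finite L := Finite.of_subgroup_quotient f.ker
  exact Set.toFinite _

theorem IsLocFin.sup {A B : Subgroup G} [A.Normal] (hA : IsLocFin A) (hB : IsLocFin B) :
    IsLocFin (A ⊔ B) := by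
  apply IsLocFin.of_map_quotient A hA
  rw [Subgroup.map_sup]
  have : A.map (QuotientGroup.mk' A) = ⊥ := by
    rw [Subgroup.map_eq_bot_iff]; simp
  rw [this, bot_sup_eq]
  exact hB.map _

end basics

section radical

variable (G : Type*) [Group G]

/-- The locally finite radical. -/
def lfRad : Subgroup G where
  carrier := {g | IsLocFin (normalClosure ({g} : Set G))}
  mul_mem' := by
    intro a b ha hb
    have h : normalClosure ({a * b} : Set G) ≤ normalClosure ({a} : Set G) ⊔ normalClosure ({b} : Set G) := by
      apply normalClosure_le_normal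
      rw [Set.singleton_subset_iff]
      exact mul_mem (mem_sup_left (subset_normalClosure rfl)) (mem_sup_right (subset_normalClosure rfl))
    exact (IsLocFin.sup ha hb).mono h
  one_mem' := by
    have h : normalClosure ({1} : Set G) = ⊥ := by
      rw [eq_bot_iff]
      exact normalClosure_le_normal (by simp)
    show IsLocFin (normalClosure ({1} : Set G))
    rw [h]
    exact isLocFin_of_finite (by simp)
  inv_mem' := by
    intro a ha
    have h : normalClosure ({a⁻¹} : Set G) ≤ normalClosure ({a} : Set G) := by
      apply normalClosure_le_normal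
      rw [Set.singleton_subset_iff]
      exact inv_mem (subset_normalClosure rfl)
    exact IsLocFin.mono h ha

variable {G}

theorem mem_lfRad {g : G} : g ∈ lfRad G ↔ IsLocFin (normalClosure ({g} : Set G)) := Iff.rfl

theorem le_lfRad {N : Subgroup G} [hN : N.Normal] (h : IsLocFin N) : N ≤ lfRad G := by
  intro g hg
  rw [mem_lfRad]
  exact h.mono (normalClosure_le_normal (Set.singleton_subset_iff.2 hg))

theorem isLocFin_lfRad : IsLocFin (lfRad G) := by
  classical
  have key : ∀ S : Finset G, (S : Set G) ⊆ (lfRad G : Set G) →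
      IsLocFin (normalClosure (S : Set G)) := by
    intro S
    induction S using Finset.induction_on with
    | empty =>
      intro _
      have h : normalClosure ((∅ : Finset G) : Set G) = ⊥ := by
        rw [eq_bot_iff]
        exact normalClosure_le_normal (by simp)
      rw [h]
      exact isLocFin_of_finite (by simp)
    | insert x S _ ih =>
      intro hS
      have hx : x ∈ lfRad G := hS (by simp)
      have h := ih (fun y hy => hS (by
        simp only [Finset.coe_insert, Set.mem_insert_iff]; exact Or.inr hy))
      refine (IsLocFin.sup (mem_lfRad.1 hx) h).mono ?_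
      apply normalClosure_le_normal
      intro y hy
      simp only [Finset.coe_insert, Set.mem_insert_iff] at hy
      rcases hy with rfl | hy
      · exact mem_sup_left (subset_normalClosure rfl)
      · exact mem_sup_right (subset_normalClosure hy)
  intro S hS
  exact key S hS S subset_normalClosure

instance lfRad_characteristic : (lfRad G).Characteristic := by
  rw [characteristic_iff_map_le]
  intro φ
  rintro x ⟨y, hy, rfl⟩
  have hy' : IsLocFin (normalClosure ({y} : Set G)) := hy
  show IsLocFin (normalClosure ({φ y} : Set G))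
  refine (hy'.map φ.toMonoidHom).mono ?_
  have : ((normalClosure ({y} : Set G)).map φ.toMonoidHom).Normal :=
    Normal.map inferInstance _ φ.surjective
  apply normalClosure_le_normal
  rw [Set.singleton_subset_iff]
  exact ⟨y, subset_normalClosure rfl, rfl⟩

theorem mem_lfRad_of_normal {F : Subgroup G} [F.Normal] {a : F} (ha : a ∈ lfRad F) :
    (a : G) ∈ lfRad G := by
  have h1 : ((lfRad F).map F.subtype).Normal := inferInstance
  exact le_lfRad (isLocFin_lfRad.map F.subtype) ⟨a, ha, rfl⟩

theorem mem_lfRad_subgroup {K : Subgroup G} {a : G} (haK : a ∈ K) (ha : a ∈ lfRad G) :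
    (⟨a, haK⟩ : K) ∈ lfRad K := by
  have h : IsLocFin ((lfRad G).comap K.subtype) :=
    isLocFin_lfRad.comap_of_injective _ K.subtype_injective
  exact le_lfRad h ha

theorem PairFinite.isOfFinOrder {a : G} (ha : PairFinite a) : IsOfFinOrder a := by
  have h := ha 1
  have h2 : ((zpowers a : Subgroup G) : Set G).Finite := by
    refine h.subset ?_
    have : zpowers a ≤ closure ({a, 1⁻¹ * a * 1} : Set G) := by
      rw [zpowers_le]
      exact subset_closure (by simp)
    exact this
  have : Finite (zpowers a) := h2.to_subtype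
  exact isOfFinOrder_iff_pow_eq_one.2 (by
    have := (isOfFinOrder_of_finite (⟨a, mem_zpowers a⟩ : zpowers a))
    obtain ⟨n, hn, h⟩ := isOfFinOrder_iff_pow_eq_one.1 this
    exact ⟨n, hn, by simpa using congrArg Subtype.val h⟩)

theorem isOfFinOrder_of_mem_finite {K : Subgroup G} (hK : (K : Set G).Finite) {x : G}
    (hx : x ∈ K) : IsOfFinOrder x := by
  have : Finite K := hK.to_subtype
  have := (isOfFinOrder_of_finite (⟨x, hx⟩ : K))
  obtain ⟨n, hn, h⟩ := isOfFinOrder_iff_pow_eq_one.1 this
  exact isOfFinOrder_iff_pow_eq_one.2 ⟨n, hn, by simpa using congrArg Subtype.val h⟩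

theorem PairFinite.subgroup {K : Subgroup G} {a : G} (haK : a ∈ K) (ha : PairFinite a) :
    PairFinite (⟨a, haK⟩ : K) := by
  intro g
  refine Set.Finite.of_finite_image (f := K.subtype) ((ha g).subset ?_) K.subtype_injective.injOn
  have h2 : (closure ({⟨a, haK⟩, g⁻¹ * ⟨a, haK⟩ * g} : Set K)).map K.subtype =
      closure ({a, (g : G)⁻¹ * a * g} : Set G) := by
    rw [MonoidHom.map_closure]
    congr 1
    rw [Set.image_pair]
    simp
  rw [← h2]
  rintro x ⟨y, hy, rfl⟩
  exact ⟨y, hy, rfl⟩

theorem PairFinite.map {G' : Type*} [Group G'] (f : G →* G') (hf : Function.Surjective f) {a : G}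
    (ha : PairFinite a) : PairFinite (f a) := by
  intro g'
  obtain ⟨g, rfl⟩ := hf g'
  have h2 : (closure ({a, g⁻¹ * a * g} : Set G)).map f =
      closure ({f a, (f g)⁻¹ * f a * f g} : Set G') := by
    rw [MonoidHom.map_closure]
    congr 1
    rw [Set.image_pair]
    simp
  rw [← h2]
  exact (ha g).image f

/-- conjugates of a pair-finite element: any two of them generate a finite subgroup -/
theorem PairFinite.conj_pair {a : G} (ha : PairFinite a) (g h : G) :
    ((closure ({g⁻¹ * a * g, h⁻¹ * a * h} : Set G) : Subgroup G) : Set G).Finite := by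
  have h1 := ha (h * g⁻¹)
  let f : G →* G := (MulAut.conj g⁻¹).toMonoidHom
  have h2 : (closure ({a, (h * g⁻¹)⁻¹ * a * (h * g⁻¹)} : Set G)).map f =
      closure ({g⁻¹ * a * g, h⁻¹ * a * h} : Set G) := by
    rw [MonoidHom.map_closure]
    congr 1
    rw [Set.image_pair]
    simp [f, mul_assoc]
  rw [← h2]
  exact h1.image f

end radical

/-- Every pair-finite element lies in the locally finite radical. -/
def X (E : Type*) [Group E] : Prop := ∀ a : E, PairFinite a → a ∈ lfRad E

theorem X.of_fg {E : Type*} [Group E] (h : ∀ K : Subgroup E, K.FG → X K) : X E := by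
  classical
  intro a ha
  rw [mem_lfRad]
  intro S hS
  obtain ⟨t, ht, hSt⟩ := subset_closure_finset (s := Group.conjugatesOfSet ({a} : Set E)) S hS
  have hconj : ∀ x ∈ t, ∃ g : E, g⁻¹ * a * g = x := by
    intro x hx
    have := ht hx
    simp only [Group.mem_conjugatesOfSet_iff, Set.mem_singleton_iff, exists_eq_left] at this
    obtain ⟨c, hc⟩ := isConj_iff.1 this
    exact ⟨c⁻¹, by simpa using hc⟩
  choose! w hw using hconj
  set K : Subgroup E := closure ((insert a (t.image w) : Finset E) : Set E) with hK
  have haK : a ∈ K := subset_closure (by simp)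
  have hwK : ∀ x ∈ t, w x ∈ K := fun x hx => subset_closure (by
    simp only [Finset.coe_insert, Finset.coe_image, Set.mem_insert_iff, Set.mem_image]
    exact Or.inr ⟨x, hx, rfl⟩)
  have h1 := h K ⟨_, rfl⟩ ⟨a, haK⟩ (ha.subgroup haK)
  rw [mem_lfRad] at h1
  have h2 := h1.map K.subtype
  apply h2
  refine hSt.trans ?_
  rw [SetLike.coe_subset_coe, closure_le]
  intro x hx
  refine ⟨(⟨w x, hwK x hx⟩ : K)⁻¹ * ⟨a, haK⟩ * ⟨w x, hwK x hx⟩, ?_, ?_⟩
  · have := (normalClosure_normal (s := ({⟨a, haK⟩} : Set K))).conj_mem ⟨a, haK⟩
      (subset_normalClosure rfl) (⟨w x, hwK x hx⟩ : K)⁻¹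
    simpa using this
  · simpa using hw x hx

end Pool.H83Shunkov
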