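import Pool.Agent.Helper83.Shunkov.Good

set_option autoImplicit false

namespace Pool.H83Shunkov

open Subgroup

/-- all conjugates at once -/
noncomputable def thetaHom {E Q ι : Type} [Group E] [Group Q] (H : Subgroup E) [H.Normal]
    (ψ : H →* (ι → Q)) : H →* ((E ⧸ H) × ι → Q) where
  toFun h p := ψ (MulAut.conjNormal (p.1.out)⁻¹ h) p.2
  map_one' := by funext p; simp
  map_mul' x y := by funext p; simp

theorem mem_ker_thetaHom {E Q ι : Type} [Group E] [Group Q] (H : Subgroup E) [H.Normal]
    (ψ : H →* (ι → Q)) (h : H) :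
    h ∈ (thetaHom H ψ).ker ↔ ∀ e : E, ψ (MulAut.conjNormal e⁻¹ h) = 1 := by
  constructor
  · intro hh e
    have h1 : ∀ q : E ⧸ H, ψ (MulAut.conjNormal (q.out)⁻¹ h) = 1 := by
      intro q
      funext i
      exact congrFun (MonoidHom.mem_ker.1 hh) (q, i)
    obtain ⟨h', hh'⟩ := QuotientGroup.mk_out_eq_mul H e
    have h2 : e⁻¹ = (h' : E) * ((e : E ⧸ H).out)⁻¹ := by
      rw [hh']; group
    have h3 : MulAut.conjNormal e⁻¹ h =
        h' * (MulAut.conjNormal ((e : E ⧸ H).out)⁻¹ h) * h'⁻¹ := by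
      rw [h2, map_mul]
      apply Subtype.ext
      simp [MulAut.conjNormal_apply]
    rw [h3, map_mul, map_mul, h1, mul_one, map_inv, mul_inv_cancel]
  · intro hh
    rw [MonoidHom.mem_ker]
    funext p
    exact congrFun (hh (p.1.out)) p.2

theorem map_ker_thetaHom_normal {E Q ι : Type} [Group E] [Group Q] (H : Subgroup E) [H.Normal]
    (ψ : H →* (ι → Q)) : ((thetaHom H ψ).ker.map H.subtype).Normal := by
  constructor
  rintro x ⟨h, hh, rfl⟩ e
  refine ⟨MulAut.conjNormal e h, ?_, ?_⟩
  · rw [SetLike.mem_coe, mem_ker_thetaHom]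
    intro e'
    have h1 : MulAut.conjNormal e'⁻¹ (MulAut.conjNormal e h) =
        MulAut.conjNormal (e⁻¹ * e')⁻¹ h := by
      apply Subtype.ext
      simp [MulAut.conjNormal_apply, mul_assoc]
    rw [h1]
    exact (mem_ker_thetaHom H ψ h).1 hh _
  · simp [MulAut.conjNormal_apply]

theorem finiteIndex_map {E E' : Type*} [Group E] [Group E'] {H : Subgroup E} (hH : H.FiniteIndex)
    {f : E →* E'} (hf : Function.Surjective f) : (H.map f).FiniteIndex := by
  constructor
  intro h0
  have := Subgroup.index_map_dvd H hf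
  rw [h0, zero_dvd_iff] at this
  exact hH.index_ne_zero this

/-- If `M` is normal with locally finite quotient `F / M`, and `M` (as a subgroup of `F`) embeds in
a finite power of a good group `N`, then `X F`. -/
theorem X_of_locFin_quotient {F Q : Type} [Group F] [Group Q] (π : F →* Q)
    (hπ : IsLocFin π.range) (N : Type) [Group N] (hN : Good N) (ι : Type) [Finite ι]
    (ρ : π.ker →* (ι → N)) (hρ : Function.Injective ρ) : X F := by
  apply X.of_fg
  intro K hK
  have hKG : Group.FG K := (Group.fg_iff_subgroup_fg K).2 hK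
  let r : K →* Q := π.comp K.subtype
  have hrfin : ((r.range : Subgroup Q) : Set Q).Finite := by
    apply (hπ.mono _).finite_of_fg
    · have h1 : r.range = (⊤ : Subgroup K).map r := MonoidHom.range_eq_map r
      rw [h1]
      exact fg_map hKG.out r
    · rintro x ⟨k, rfl⟩
      exact ⟨k, rfl⟩
  have : Finite r.range := hrfin.to_subtype
  have hfi : r.ker.FiniteIndex := finiteIndex_ker r
  let f : r.ker →* π.ker :=
    { toFun := fun x => ⟨((x : K) : F), x.2⟩
      map_one' := rfl
      map_mul' := fun _ _ => rfl }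
  have hf : Function.Injective f := by
    intro x y hxy
    have := congrArg (fun z : π.ker => (z : F)) hxy
    exact Subtype.ext (Subtype.ext this)
  exact hN K r.ker hfi ι (ρ.comp f) (hρ.comp hf)

theorem good_extension (G : Type) [Group G] (N : Subgroup G) [N.Normal] (hN : Good N)
    (hQ : Good (G ⧸ N)) : Good G := by
  apply good_of_normal
  intro E _ H hHn hH ι _ φ hφ a ha
  have hEH : Finite (E ⧸ H) := finiteIndex_iff_finite_quotient.1 hH
  let ψ : H →* (ι → G ⧸ N) := ((QuotientGroup.mk' N).compLeft ι).comp φ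
  obtain ⟨M, hM⟩ : ∃ M : Subgroup E, M = (thetaHom H ψ).ker.map H.subtype := ⟨_, rfl⟩
  have hMn : M.Normal := by
    rw [hM]
    exact map_ker_thetaHom_normal H ψ
  have hMmem : ∀ h : H, (h : E) ∈ M ↔ h ∈ (thetaHom H ψ).ker := by
    intro h
    rw [hM]
    constructor
    · rintro ⟨h', hh', hheq⟩
      have : h' = h := Subtype.ext hheq
      exact this ▸ hh'
    · intro hh
      exact ⟨h, hh, rfl⟩
  have hMH : M ≤ H := by
    rw [hM]
    rintro x ⟨h, _, rfl⟩
    exact h.2
  obtain ⟨π, hπ, hπk⟩ : ∃ π : E →* E ⧸ M, Function.Surjective π ∧ ∀ x, x ∈ π.ker ↔ x ∈ M :=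
    ⟨QuotientGroup.mk' M, QuotientGroup.mk'_surjective M, fun x => by rw [QuotientGroup.ker_mk']⟩
  have hjr : (π.comp H.subtype).range.FiniteIndex := by
    rw [MonoidHom.range_comp, Subgroup.range_subtype]
    exact finiteIndex_map hH hπ
  have hjk : (π.comp H.subtype).ker = (thetaHom H ψ).ker := by
    ext h
    rw [← hMmem, ← hπk, MonoidHom.mem_ker, MonoidHom.mem_ker]
    rfl
  have hX : X (E ⧸ M) := hQ.flex (π.comp H.subtype) hjr ((E ⧸ H) × ι) (thetaHom H ψ) hjk
  have haM : π a ∈ lfRad (E ⧸ M) := hX _ (ha.map π hπ)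
  obtain ⟨F, hF⟩ : ∃ F : Subgroup E, F = (lfRad (E ⧸ M)).comap π := ⟨_, rfl⟩
  have hFn : F.Normal := by rw [hF]; infer_instance
  have haF : a ∈ F := by rw [hF]; exact haM
  have hXF : X F := by
    have hmemM : ∀ x : (π.comp F.subtype).ker, ((x : F) : E) ∈ M := fun x =>
      (hπk _).1 x.2
    let f : (π.comp F.subtype).ker →* H :=
      { toFun := fun x => ⟨((x : F) : E), hMH (hmemM x)⟩
        map_one' := rfl
        map_mul' := fun _ _ => rfl }
    have hf : Function.Injective f := by
      intro x y hxy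
      have := congrArg (fun z : H => (z : E)) hxy
      exact Subtype.ext (Subtype.ext this)
    have hψf : ∀ x, ψ (f x) = 1 := by
      intro x
      have h1 : f x ∈ (thetaHom H ψ).ker := (hMmem (f x)).1 (hmemM x)
      have h2 := (mem_ker_thetaHom H ψ (f x)).1 h1 1
      have h3 : MulAut.conjNormal (1 : E)⁻¹ (f x) = f x := by simp
      rwa [h3] at h2
    have hφN : ∀ x (i : ι), φ (f x) i ∈ N := by
      intro x i
      exact (QuotientGroup.eq_one_iff (N := N) _).1 (congrFun (hψf x) i)
    let ρ : (π.comp F.subtype).ker →* (ι → N) :=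
      { toFun := fun x i => ⟨φ (f x) i, hφN x i⟩
        map_one' := by funext i; exact Subtype.ext (by simp)
        map_mul' := fun x y => by funext i; exact Subtype.ext (by simp) }
    have hρ : Function.Injective ρ := by
      intro x y hxy
      apply hf
      apply hφ
      funext i
      exact congrArg Subtype.val (congrFun hxy i)
    apply X_of_locFin_quotient (π.comp F.subtype) _ N hN ι ρ hρ
    apply isLocFin_lfRad.mono
    rintro x ⟨⟨y, hy⟩, rfl⟩
    rw [hF] at hy
    exact hy
  have h5 : (⟨a, haF⟩ : F) ∈ lfRad F := hXF ⟨a, haF⟩ (ha.subgroup haF)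
  have h6 : (((⟨a, haF⟩ : F) : F) : E) ∈ lfRad E :=
    mem_lfRad_of_normal (F := F) (a := ⟨a, haF⟩) h5
  exact h6

theorem good_of_ker_range {G Q : Type} [Group G] [Group Q] (f : G →* Q) (hk : Good f.ker)
    (hQ : Good Q) : Good G := by
  apply good_extension G f.ker hk
  exact hQ.comp (QuotientGroup.kerLift f) (QuotientGroup.kerLift_injective f)

/-- finite direct products -/
theorem good_piFin : ∀ (k : ℕ) (A : Fin k → Type) [∀ i, Group (A i)], (∀ i, Good (A i)) →
    Good (∀ i, A i) := by
  intro k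
  induction k with
  | zero =>
    intro A _ _
    exact good_finite _
  | succ k ih =>
    intro A _ hA
    let f : (∀ i, A i) →* A 0 := Pi.evalMonoidHom A 0
    apply good_of_ker_range f _ (hA 0)
    let g : f.ker →* (∀ i : Fin k, A i.succ) :=
      { toFun := fun x i => (x : ∀ i, A i) i.succ
        map_one' := rfl
        map_mul' := fun _ _ => rfl }
    refine (ih (fun i => A i.succ) (fun i => hA i.succ)).comp g ?_
    intro x y hxy
    apply Subtype.ext
    funext i
    refine Fin.cases ?_ (fun i => congrFun hxy i) i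
    have hx : (x : ∀ i, A i) 0 = 1 := MonoidHom.mem_ker.1 x.2
    have hy : (y : ∀ i, A i) 0 = 1 := MonoidHom.mem_ker.1 y.2
    rw [hx, hy]

theorem good_pi {ι : Type} [Finite ι] (A : ι → Type) [∀ i, Group (A i)] (h : ∀ i, Good (A i)) :
    Good (∀ i, A i) := by
  obtain ⟨k, ⟨e⟩⟩ := Finite.exists_equiv_fin ι
  let f : (∀ i, A i) →* (∀ j : Fin k, A (e.symm j)) :=
    { toFun := fun x j => x (e.symm j)
      map_one' := rfl
      map_mul' := fun _ _ => rfl }
  refine (good_piFin k (fun j => A (e.symm j)) (fun j => h _)).comp f ?_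
  intro x y hxy
  funext i
  have := congrFun hxy (e i)
  simp only [f, MonoidHom.coe_mk, OneHom.coe_mk] at this
  have key : ∀ i', i' = i → x i' = y i' → x i = y i := by
    rintro _ rfl h'; exact h'
  exact key _ (e.symm_apply_apply i) this

/-- reduction to `H ⊔ zpowers a`: if `H` is normal of finite index and `a` lies in the locally
finite radical of `H ⊔ ⟨a⟩`, then `a` lies in the locally finite radical of the whole group. -/
theorem mem_lfRad_of_sup_zpowers {E : Type*} [Group E] {H : Subgroup E} [hHn : H.Normal]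
    (hH : H.FiniteIndex) {a : E} (ha : IsOfFinOrder a) (ha1 : a ∈ H ⊔ zpowers a)
    (h : (⟨a, ha1⟩ : (H ⊔ zpowers a : Subgroup E)) ∈ lfRad (H ⊔ zpowers a : Subgroup E)) :
    a ∈ lfRad E := by
  set E1 : Subgroup E := H ⊔ zpowers a with hE1
  have hHE : H ≤ E1 := le_sup_left
  -- the radical of `H` as a normal subgroup of `E`
  let R : Subgroup E := (lfRad H).map H.subtype
  have hRn : R.Normal := inferInstance
  have hRlf : IsLocFin R := isLocFin_lfRad.map H.subtype
  -- `T(E1) ⊓ H ≤ R`
  have hTR : ∀ x (hx : x ∈ E1), (⟨x, hx⟩ : E1) ∈ lfRad E1 → x ∈ H → x ∈ R := by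
    intro x hx hxT hxH
    let f : H →* E1 := inclusion hHE
    have hf : Function.Injective f := inclusion_injective hHE
    have h1 : IsLocFin ((lfRad E1).comap f) := isLocFin_lfRad.comap_of_injective f hf
    have h2 : (⟨x, hxH⟩ : H) ∈ lfRad H := le_lfRad h1 hxT
    exact ⟨⟨x, hxH⟩, h2, rfl⟩
  have hcomm : ∀ y ∈ H, a⁻¹ * (y⁻¹ * a * y) ∈ R := by
    intro y hy
    have h1 := comm_mem a hy
    have h2 : a⁻¹ * (y⁻¹ * a * y) ∈ E1 := hHE h1
    apply hTR _ h2 _ h1
    have h3 : (⟨a, ha1⟩ : E1)⁻¹ * ((⟨y, hHE hy⟩ : E1)⁻¹ * ⟨a, ha1⟩ * ⟨y, hHE hy⟩) ∈ lfRad E1 := by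
      apply mul_mem (inv_mem h)
      have h4 : (lfRad E1).Normal := inferInstance
      have := h4.conj_mem _ h (⟨y, hHE hy⟩ : E1)⁻¹
      simpa using this
    exact h3
  let π : E →* E ⧸ R := QuotientGroup.mk' R
  have hπ : Function.Surjective π := QuotientGroup.mk'_surjective R
  have hHπ : (H.map π).FiniteIndex := by
    constructor
    intro h0
    have := Subgroup.index_map_dvd H hπ
    rw [h0, zero_dvd_iff] at this
    exact hH.index_ne_zero this
  have h6 : π a ∈ lfRad (E ⧸ R) := by
    apply mem_lfRad_of_comm (MonoidHom.isOfFinOrder π ha) hHπ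
    rintro _ ⟨y, hy, rfl⟩
    have h7 : π (a⁻¹ * (y⁻¹ * a * y)) = 1 := (QuotientGroup.eq_one_iff (N := R) _).2 (hcomm y hy)
    rw [map_mul, map_inv, inv_mul_eq_one, map_mul, map_mul, map_inv] at h7
    calc π y * π a = π y * ((π y)⁻¹ * π a * π y) := by rw [← h7]
      _ = π a * π y := by group
  let F : Subgroup E := (lfRad (E ⧸ R)).comap π
  have hF : IsLocFin F := by
    apply IsLocFin.of_map_quotient R hRlf
    exact isLocFin_lfRad.mono (map_comap_le _ _)
  exact le_lfRad hF h6

end Pool.H83Shunkov
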