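import Pool.Agent.Helper83.Shunkov.TreeGood

set_option autoImplicit false

namespace Pool.H83Shunkov

open Subgroup

/-! ### consequences of `Good` -/

theorem Good.X {G : Type} [Group G] (h : Good G) : X G := by
  let f : (⊤ : Subgroup G) →* (Unit → G) :=
    { toFun := fun x _ => x.1
      map_one' := rfl
      map_mul' := fun _ _ => rfl }
  refine h G ⊤ inferInstance Unit f ?_
  intro x y hxy
  exact Subtype.ext (congrFun hxy ())

/-- Some power of `g ∉ T`, `g` of finite order, is outside `T` with a prime power in `T`. -/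
theorem exists_prime_pow {G : Type*} [Group G] (T : Subgroup G) {g : G} (hg : IsOfFinOrder g)
    (hgT : g ∉ T) : ∃ (x : G) (p : ℕ), p.Prime ∧ IsOfFinOrder x ∧ x ∉ T ∧ x ^ p ∈ T := by
  classical
  obtain ⟨n, hn, hgn⟩ := isOfFinOrder_iff_pow_eq_one.1 hg
  have hex : ∃ m, 0 < m ∧ g ^ m ∈ T := ⟨n, hn, by rw [hgn]; exact one_mem _⟩
  let m := Nat.find hex
  obtain ⟨hm0, hmT⟩ := Nat.find_spec hex
  have hm1 : m ≠ 1 := by
    intro h1
    have : g ^ m ∈ T := hmT
    rw [h1, pow_one] at this
    exact hgT this
  obtain ⟨p, hp, k, hk⟩ := Nat.exists_prime_and_dvd hm1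
  have hk0 : 0 < k := by
    rcases Nat.eq_zero_or_pos k with h | h
    · rw [h, mul_zero] at hk
      exact absurd hk (Nat.pos_iff_ne_zero.1 hm0)
    · exact h
  refine ⟨g ^ k, p, hp, hg.pow, ?_, ?_⟩
  · intro hkT
    have h1 : m ≤ k := Nat.find_min' hex ⟨hk0, hkT⟩
    have h2 : 2 * k ≤ p * k := Nat.mul_le_mul_right k hp.two_le
    omega
  · rw [← pow_mul, mul_comm, ← hk]
    exact hmT

/-- The Shunkov condition. -/
theorem shunkov_conclusion {G : Type} [Group G] (hX : Pool.H83Shunkov.X G)
    (hS : ∀ (H : Subgroup G), (H : Set G).Finite →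
        ∀ (x y n : G) (p : ℕ), p.Prime →
          x ∈ Subgroup.normalizer (H : Set G) →
          y ∈ Subgroup.normalizer (H : Set G) →
          n ∈ Subgroup.normalizer (H : Set G) →
          x ^ p ∈ H → x ∉ H → (n * x * n⁻¹)⁻¹ * y ∈ H →
          ((Subgroup.closure (({x, y} : Set G) ∪ (H : Set G)) : Subgroup G) : Set G).Finite)
    (hinf : {g : G | IsOfFinOrder g}.Infinite) :
    (lfRad G : Set G).Infinite ∧ ∀ g : G, (orderOf g).Prime → g ∈ lfRad G := by
  have key : ∀ (H : Subgroup G) [H.Normal], (H : Set G).Finite → ∀ (x : G) (p : ℕ), p.Prime →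
      x ∉ H → x ^ p ∈ H → x ∈ lfRad G := by
    intro H hH hfin x p hp hxH hxp
    apply hX
    intro g
    have htop : Subgroup.normalizer (H : Set G) = ⊤ := by
      exact normalizer_eq_top_iff.2 hH
    have h1 := hS H hfin x (g⁻¹ * x * g) g⁻¹ p hp (by rw [htop]; trivial) (by rw [htop]; trivial)
      (by rw [htop]; trivial) hxp hxH (by
        have : (g⁻¹ * x * g⁻¹⁻¹)⁻¹ * (g⁻¹ * x * g) = 1 := by group
        rw [this]; exact one_mem _)
    exact h1.subset (closure_mono Set.subset_union_left)
  constructor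
  · intro hfin
    apply hinf
    refine hfin.subset ?_
    intro g hg
    by_contra hgT
    obtain ⟨x, p, hp, _, hxT, hxp⟩ := exists_prime_pow (lfRad G) hg hgT
    exact hxT (key (lfRad G) hfin x p hp hxT hxp)
  · intro g hg
    apply key ⊥ (by simp) g (orderOf g) hg
    · rw [mem_bot]
      rintro rfl
      rw [orderOf_one] at hg
      exact Nat.not_prime_one hg
    · rw [pow_orderOf_eq_one]
      exact one_mem _

/-! ### elementary amenable groups -/

/-- all sections (quotients of subgroups) of `G` are good -/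
def GoodSec (G : Type) [Group G] : Prop :=
  ∀ (A B : Type) [Group A] [Group B] (i : A →* G) (q : A →* B), Function.Injective i →
    Function.Surjective q → Good B

theorem GoodSec.good {G : Type} [Group G] (h : GoodSec G) : Good G :=
  h G G (MonoidHom.id G) (MonoidHom.id G) Function.injective_id Function.surjective_id

theorem goodSec_finite (G : Type) [Group G] [Finite G] : GoodSec G := by
  intro A B _ _ i q hi hq
  have : Finite A := Finite.of_injective i hi
  have : Finite B := Finite.of_surjective q hq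
  exact good_finite B

theorem good_abelian (B : Type) [Group B] (hB : ∀ x y : B, x * y = y * x) : Good B := by
  classical
  let N : Subgroup B :=
    { carrier := {x | IsOfFinOrder x}
      mul_mem' := fun {x y} hx hy => Commute.isOfFinOrder_mul (hB x y) hx hy
      one_mem' := IsOfFinOrder.one
      inv_mem' := fun hx => hx.inv }
  have hN : N.Normal := ⟨fun x hx g => by rw [hB g x, mul_inv_cancel_right]; exact hx⟩
  apply good_extension B N
  · apply good_union N (fun S : Finset N => closure (S : Set N))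
    · intro S S'
      exact ⟨S ∪ S', closure_mono (by simp), closure_mono (by simp)⟩
    · intro g
      exact ⟨{g}, subset_closure (by simp)⟩
    · intro S
      have hfg : Group.FG (closure (S : Set N)) := (Group.fg_iff_subgroup_fg _).2 ⟨S, rfl⟩
      let hc : CommGroup (closure (S : Set N)) :=
        { (inferInstance : Group (closure (S : Set N))) with
          mul_comm := fun x y => Subtype.ext (Subtype.ext (hB _ _)) }
      have hfin : Finite (closure (S : Set N)) := by
        apply CommGroup.finite_of_fg_isMulTorsion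
        intro x
        obtain ⟨n, hn, h⟩ := isOfFinOrder_iff_pow_eq_one.1 (x : N).2
        exact isOfFinOrder_iff_pow_eq_one.2 ⟨n, hn, Subtype.ext (Subtype.ext (by simpa using h))⟩
      exact good_finite _
  · apply good_torsionFree
    intro g hg
    obtain ⟨b, rfl⟩ := QuotientGroup.mk_surjective g
    obtain ⟨n, hn, h⟩ := isOfFinOrder_iff_pow_eq_one.1 hg
    rw [← QuotientGroup.mk_pow, QuotientGroup.eq_one_iff] at h
    rw [QuotientGroup.eq_one_iff]
    obtain ⟨m, hm, h'⟩ := isOfFinOrder_iff_pow_eq_one.1 (show IsOfFinOrder (b ^ n) from h)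
    rw [← pow_mul] at h'
    exact isOfFinOrder_iff_pow_eq_one.2 ⟨n * m, Nat.mul_pos hn hm, h'⟩

theorem goodSec_abelian (G : Type) [Group G] (hG : ∀ x y : G, x * y = y * x) : GoodSec G := by
  intro A B _ _ i q hi hq
  apply good_abelian
  intro x y
  obtain ⟨a, rfl⟩ := hq x
  obtain ⟨b, rfl⟩ := hq y
  rw [← map_mul, ← map_mul]
  congr 1
  apply hi
  rw [map_mul, map_mul, hG]

theorem GoodSec.sub {G G' : Type} [Group G] [Group G'] (f : G →* G') (hf : Function.Injective f)
    (h : GoodSec G') : GoodSec G := by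
  intro A B _ _ i q hi hq
  exact h A B (f.comp i) q (hf.comp hi) hq

theorem GoodSec.quot {G G' : Type} [Group G] [Group G'] (f : G' →* G) (hf : Function.Surjective f)
    (h : GoodSec G') : GoodSec G := by
  intro A B _ _ i q hi hq
  let e : A ≃* i.range := MonoidHom.ofInjective hi
  let A' : Subgroup G' := i.range.comap f
  let r : A' →* i.range :=
    { toFun := fun x => ⟨f x, x.2⟩
      map_one' := Subtype.ext (map_one f)
      map_mul' := fun x y => Subtype.ext (map_mul f x.1 y.1) }
  have hr : Function.Surjective r := by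
    rintro ⟨y, hy⟩
    obtain ⟨x, rfl⟩ := hf y
    exact ⟨⟨x, hy⟩, rfl⟩
  refine h A' B A'.subtype ((q.comp e.symm.toMonoidHom).comp r) A'.subtype_injective ?_
  exact (hq.comp e.symm.surjective).comp hr

theorem goodSec_extension (G : Type) [Group G] (N : Subgroup G) [N.Normal] (hN : GoodSec N)
    (hQ : GoodSec (G ⧸ N)) : GoodSec G := by
  intro A B _ _ i q hi hq
  let AN : Subgroup A := N.comap i
  have hAN : AN.Normal := inferInstance
  let BN : Subgroup B := AN.map q
  have hBN : BN.Normal := Subgroup.Normal.map hAN q hq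
  apply good_extension B BN
  · let i' : AN →* N :=
      { toFun := fun x => ⟨i x, x.2⟩
        map_one' := Subtype.ext (map_one i)
        map_mul' := fun x y => Subtype.ext (map_mul i x.1 y.1) }
    let q' : AN →* BN :=
      { toFun := fun x => ⟨q x, ⟨x, x.2, rfl⟩⟩
        map_one' := Subtype.ext (map_one q)
        map_mul' := fun x y => Subtype.ext (map_mul q x.1 y.1) }
    refine hN AN BN i' q' ?_ ?_
    · intro x y hxy
      exact Subtype.ext (hi (congrArg Subtype.val hxy))
    · rintro ⟨y, ⟨x, hx, rfl⟩⟩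
      exact ⟨⟨x, hx⟩, rfl⟩
  · let i' : A ⧸ AN →* G ⧸ N := QuotientGroup.map AN N i le_rfl
    let q' : A ⧸ AN →* B ⧸ BN := QuotientGroup.map AN BN q (le_comap_map q AN)
    refine hQ (A ⧸ AN) (B ⧸ BN) i' q' ?_ ?_
    · rw [injective_iff_map_eq_one]
      intro x hx
      obtain ⟨a, rfl⟩ := QuotientGroup.mk_surjective x
      have h1 : ((i a : G) : G ⧸ N) = 1 := hx
      rw [QuotientGroup.eq_one_iff] at h1
      exact (QuotientGroup.eq_one_iff a).2 h1
    · intro y
      obtain ⟨b, rfl⟩ := QuotientGroup.mk_surjective y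
      obtain ⟨a, rfl⟩ := hq b
      exact ⟨(a : A ⧸ AN), rfl⟩

theorem goodSec_union (G : Type) [Group G] {κ : Type} (F : κ → Subgroup G)
    (hd : Directed (· ≤ ·) F) (hU : ∀ g : G, ∃ i, g ∈ F i) (hF : ∀ i, GoodSec (F i)) :
    GoodSec G := by
  intro A B _ _ i q hi hq
  apply good_union B (fun k => ((F k).comap i).map q)
  · intro k l
    obtain ⟨m, hkm, hlm⟩ := hd k l
    exact ⟨m, map_mono (comap_mono hkm), map_mono (comap_mono hlm)⟩
  · intro b
    obtain ⟨a, rfl⟩ := hq b
    obtain ⟨k, hk⟩ := hU (i a)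
    exact ⟨k, ⟨a, hk, rfl⟩⟩
  · intro k
    let i' : (F k).comap i →* F k :=
      { toFun := fun x => ⟨i x, x.2⟩
        map_one' := Subtype.ext (map_one i)
        map_mul' := fun x y => Subtype.ext (map_mul i x.1 y.1) }
    let q' : (F k).comap i →* ((F k).comap i).map q :=
      { toFun := fun x => ⟨q x, ⟨x, x.2, rfl⟩⟩
        map_one' := Subtype.ext (map_one q)
        map_mul' := fun x y => Subtype.ext (map_mul q x.1 y.1) }
    refine hF k _ _ i' q' ?_ ?_
    · intro x y hxy
      exact Subtype.ext (hi (congrArg Subtype.val hxy))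
    · rintro ⟨y, ⟨x, hx, rfl⟩⟩
      exact ⟨⟨x, hx⟩, rfl⟩

end Pool.H83Shunkov
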