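import Pool.Agent.Helper83.Shunkov.Base

set_option autoImplicit false

namespace Pool.H83Shunkov

open Subgroup

/-- Dietzmann: a torsion element whose centralizer has finite index has a finite normal closure. -/
theorem finite_normalClosure {E : Type*} [Group E] {a : E} (ha : IsOfFinOrder a)
    {H : Subgroup E} (hH : H.FiniteIndex) (hcomm : ∀ h ∈ H, h * a = a * h) :
    ((normalClosure ({a} : Set E) : Subgroup E) : Set E).Finite := by
  classical
  set N : Subgroup E := H.normalCore with hN
  have hNi : N.FiniteIndex := inferInstance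
  have hNH : N ≤ H := H.normalCore_le
  set D : Subgroup E := normalClosure ({a} : Set E) with hD
  have hDle : ∀ M : Subgroup E, (∀ y ∈ Group.conjugatesOfSet ({a} : Set E), y ∈ M) → D ≤ M :=
    fun M h => (Subgroup.closure_le M).2 h
  -- the conjugates of `a`
  have hconjfin : (Group.conjugatesOfSet ({a} : Set E)).Finite := by
    have hfq : Finite (E ⧸ H) := finiteIndex_iff_finite_quotient.1 hH
    refine (Set.finite_range (fun q : E ⧸ H => q.out * a * q.out⁻¹)).subset ?_
    intro x hx
    simp only [Group.mem_conjugatesOfSet_iff, Set.mem_singleton_iff, exists_eq_left] at hx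
    obtain ⟨c, hc⟩ := isConj_iff.1 hx
    refine ⟨(c : E ⧸ H), ?_⟩
    obtain ⟨h, hh⟩ := QuotientGroup.mk_out_eq_mul H c
    have h1 := hcomm h h.2
    simp only
    rw [hh, ← hc]
    calc c * (h : E) * a * (c * (h : E))⁻¹ = c * ((h : E) * a) * (c * (h : E))⁻¹ := by group
      _ = c * (a * h) * (c * (h : E))⁻¹ := by rw [h1]
      _ = c * a * c⁻¹ := by group
  have hDfg : D.FG := ⟨hconjfin.toFinset, by
    rw [Set.Finite.coe_toFinset]; rfl⟩
  have hDG : Group.FG D := (Group.fg_iff_subgroup_fg D).2 hDfg
  -- `N` centralizes `D`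
  have hNconj : ∀ n ∈ N, ∀ x ∈ Group.conjugatesOfSet ({a} : Set E), n * x = x * n := by
    intro n hn x hx
    simp only [Group.mem_conjugatesOfSet_iff, Set.mem_singleton_iff, exists_eq_left] at hx
    obtain ⟨c, hc⟩ := isConj_iff.1 hx
    have hn' : c⁻¹ * n * c ∈ N := by
      have := (H.normalCore_normal).conj_mem n hn c⁻¹
      simpa using this
    have h1 := hcomm _ (hNH hn')
    rw [← hc]
    calc n * (c * a * c⁻¹) = c * ((c⁻¹ * n * c) * a) * c⁻¹ := by group
      _ = c * (a * (c⁻¹ * n * c)) * c⁻¹ := by rw [h1]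
      _ = c * a * c⁻¹ * n := by group
  have hNcent : N.subgroupOf D ≤ center D := by
    intro x hx
    have hxN : (x : E) ∈ N := hx
    rw [mem_center_iff]
    have h2 : D ≤ centralizer ({(x : E)} : Set E) := by
      apply hDle
      intro y hy
      rw [mem_centralizer_singleton_iff]
      exact (hNconj x hxN y hy).symm
    intro g
    have h3 := h2 g.2
    rw [mem_centralizer_singleton_iff] at h3
    exact Subtype.ext h3
  have hcfi : (center D).FiniteIndex := by
    have : (N.subgroupOf D).FiniteIndex := inferInstance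
    exact finiteIndex_of_le hNcent
  -- every element of `D` is torsion
  have hgen : ∀ y (hy : y ∈ D), IsOfFinOrder (MonoidHom.transferCenterPow D ⟨y, hy⟩) := by
    intro y hy
    induction hy using closure_induction with
    | mem y hy =>
      have hyD : y ∈ D := conjugatesOfSet_subset_normalClosure hy
      have hyt : IsOfFinOrder y := by
        simp only [Group.mem_conjugatesOfSet_iff, Set.mem_singleton_iff, exists_eq_left] at hy
        obtain ⟨c, hc⟩ := isConj_iff.1 hy
        rw [← hc]
        have := MonoidHom.isOfFinOrder (MulAut.conj c).toMonoidHom ha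
        simpa using this
      have hyt' : IsOfFinOrder (⟨y, hyD⟩ : D) := by
        obtain ⟨n, hn, h⟩ := isOfFinOrder_iff_pow_eq_one.1 hyt
        exact isOfFinOrder_iff_pow_eq_one.2 ⟨n, hn, Subtype.ext (by simpa using h)⟩
      exact MonoidHom.isOfFinOrder (MonoidHom.transferCenterPow D) hyt'
    | one =>
      have : MonoidHom.transferCenterPow D 1 = 1 := map_one _
      exact this ▸ IsOfFinOrder.one
    | mul x y hx hy ihx ihy =>
      have h1 : MonoidHom.transferCenterPow D ⟨x * y, mul_mem hx hy⟩ =
          MonoidHom.transferCenterPow D ⟨x, hx⟩ * MonoidHom.transferCenterPow D ⟨y, hy⟩ :=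
        map_mul (MonoidHom.transferCenterPow D) (⟨x, hx⟩ : D) (⟨y, hy⟩ : D)
      rw [h1]
      apply Commute.isOfFinOrder_mul _ ihx ihy
      exact mul_comm' _ _
    | inv x hx ih =>
      have h1 : MonoidHom.transferCenterPow D ⟨x⁻¹, inv_mem hx⟩ =
          (MonoidHom.transferCenterPow D ⟨x, hx⟩)⁻¹ :=
        map_inv (MonoidHom.transferCenterPow D) (⟨x, hx⟩ : D)
      rw [h1]
      exact ih.inv
  have htors : ∀ d : D, IsOfFinOrder d := by
    intro d
    obtain ⟨n, hn, h⟩ := isOfFinOrder_iff_pow_eq_one.1 (hgen d d.2)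
    have h5 := congrArg Subtype.val h
    rw [SubmonoidClass.coe_pow, MonoidHom.transferCenterPow_apply, ← pow_mul] at h5
    exact isOfFinOrder_iff_pow_eq_one.2
      ⟨_, Nat.mul_pos (Nat.pos_of_ne_zero hcfi.index_ne_zero) hn, h5⟩
  have hcfg : Group.FG (center D) := inferInstance
  have hcfin : Finite (center D) := by
    letI : CommGroup (center D) :=
      { (inferInstance : Group (center D)) with mul_comm := mul_comm' }
    apply CommGroup.finite_of_fg_isMulTorsion
    intro z
    obtain ⟨n, hn, h⟩ := isOfFinOrder_iff_pow_eq_one.1 (htors z)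
    exact isOfFinOrder_iff_pow_eq_one.2 ⟨n, hn, Subtype.ext (by simpa using h)⟩
  have : Finite (D ⧸ center D) := finiteIndex_iff_finite_quotient.1 hcfi
  have : Finite D := Finite.of_subgroup_quotient (center D)
  exact Set.toFinite _

theorem mem_lfRad_of_comm {E : Type*} [Group E] {a : E} (ha : IsOfFinOrder a)
    {H : Subgroup E} (hH : H.FiniteIndex) (hcomm : ∀ h ∈ H, h * a = a * h) : a ∈ lfRad E :=
  isLocFin_of_finite (finite_normalClosure ha hH hcomm)

/-- For `H` normal, the element `a⁻¹ * a ^ h` lies in `H`. -/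
theorem comm_mem {E : Type*} [Group E] {H : Subgroup E} [hn : H.Normal] (a : E) {h : E}
    (hh : h ∈ H) : a⁻¹ * (h⁻¹ * a * h) ∈ H := by
  have h1 : a⁻¹ * h⁻¹ * a ∈ H := by
    have := hn.conj_mem h⁻¹ (inv_mem hh) a⁻¹
    simpa using this
  have := mul_mem h1 hh
  simpa [mul_assoc] using this

/-- The class of groups `G` such that `X E` holds for every group `E` having a finite-index
subgroup that embeds in a finite power of `G`. -/
def Good (G : Type) [Group G] : Prop :=
  ∀ (E : Type) [Group E] (H : Subgroup E), H.FiniteIndex → ∀ (ι : Type) [Finite ι]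
    (φ : H →* (ι → G)), Function.Injective φ → X E

/-- normal version -/
theorem good_of_normal {G : Type} [Group G]
    (h : ∀ (E : Type) [Group E] (H : Subgroup E) [H.Normal], H.FiniteIndex → ∀ (ι : Type) [Finite ι]
    (φ : H →* (ι → G)), Function.Injective φ → X E) : Good G := by
  intro E _ H hH ι _ φ hφ
  have hle : H.normalCore ≤ H := H.normalCore_le
  exact h E H.normalCore inferInstance ι (φ.comp (inclusion hle))
    (hφ.comp (inclusion_injective hle))

theorem Good.comp {G G' : Type} [Group G] [Group G'] (h : Good G') (f : G →* G')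
    (hf : Function.Injective f) : Good G := by
  intro E _ H hH ι _ φ hφ
  refine h E H hH ι ((f.compLeft ι).comp φ) ?_
  intro x y hxy
  apply hφ
  funext i
  exact hf (congrFun hxy i)

theorem Good.flex {G : Type} [Group G] (h : Good G) {E L : Type} [Group E] [Group L] (j : L →* E)
    (hj : j.range.FiniteIndex) (ι : Type) [Finite ι] (φ : L →* (ι → G)) (hker : j.ker = φ.ker) :
    X E := by
  have hs := j.rangeRestrict_surjective
  have hk : j.rangeRestrict.ker = j.ker := j.ker_rangeRestrict
  let ψ : j.range →* (ι → G) :=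
    (j.rangeRestrict).liftOfSurjective hs ⟨φ, by rw [hk, hker]⟩
  have hψ : ∀ l : L, ψ (j.rangeRestrict l) = φ l := fun l =>
    MonoidHom.liftOfRightInverse_comp_apply _ _ _ _ l
  refine h E j.range hj ι ψ ?_
  rw [injective_iff_map_eq_one]
  intro x hx
  obtain ⟨l, rfl⟩ := hs x
  rw [hψ] at hx
  have h1 : l ∈ φ.ker := hx
  rw [← hker, ← hk] at h1
  exact h1

theorem good_finite (G : Type) [Group G] [Finite G] : Good G := by
  intro E _ H hH ι _ φ hφ
  have : Finite H := Finite.of_injective φ hφ
  have : Finite (E ⧸ H) := finiteIndex_iff_finite_quotient.1 hH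
  have : Finite E := Finite.of_subgroup_quotient H
  intro a _
  exact isLocFin_of_finite (Set.toFinite _)

theorem good_torsionFree (G : Type) [Group G] (hG : ∀ g : G, IsOfFinOrder g → g = 1) :
    Good G := by
  apply good_of_normal
  intro E _ H _ hH ι _ φ hφ a ha
  have htf : ∀ h ∈ H, IsOfFinOrder h → h = 1 := by
    intro h hh hfin
    have h1 : IsOfFinOrder (⟨h, hh⟩ : H) := by
      obtain ⟨n, hn, h'⟩ := isOfFinOrder_iff_pow_eq_one.1 hfin
      exact isOfFinOrder_iff_pow_eq_one.2 ⟨n, hn, Subtype.ext (by simpa using h')⟩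
    have h2 := MonoidHom.isOfFinOrder φ h1
    have h3 : φ ⟨h, hh⟩ = 1 := by
      funext i
      apply hG
      exact MonoidHom.isOfFinOrder (Pi.evalMonoidHom (fun _ : ι => G) i) h2
    have h4 := (injective_iff_map_eq_one φ).1 hφ _ h3
    exact congrArg Subtype.val h4
  apply mem_lfRad_of_comm ha.isOfFinOrder hH
  intro h hh
  have h1 := comm_mem a hh
  have h2 : IsOfFinOrder (a⁻¹ * (h⁻¹ * a * h)) := by
    apply isOfFinOrder_of_mem_finite (ha h)
    exact mul_mem (inv_mem (subset_closure (by simp))) (subset_closure (by simp))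
  have h3 := htf _ h1 h2
  have h4 : h⁻¹ * a * h = a := by
    rw [inv_mul_eq_one] at h3
    exact h3.symm
  calc h * a = h * (h⁻¹ * a * h) := by rw [h4]
    _ = a * h := by group

theorem good_union (G : Type) [Group G] {κ : Type} (F : κ → Subgroup G)
    (hd : Directed (· ≤ ·) F) (hU : ∀ g : G, ∃ i, g ∈ F i) (hF : ∀ i, Good (F i)) : Good G := by
  classical
  intro E _ H hH ι _ φ hφ
  apply X.of_fg
  intro K hK
  have hKG : Group.FG K := (Group.fg_iff_subgroup_fg K).2 hK
  have hfi : (H.subgroupOf K).FiniteIndex := inferInstance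
  have hfg : Group.FG (H.subgroupOf K) := inferInstance
  -- the homomorphism to the power of `G`
  let f : (H.subgroupOf K) →* H :=
    { toFun := fun x => ⟨((x : K) : E), x.2⟩
      map_one' := rfl
      map_mul' := fun _ _ => rfl }
  have hf : Function.Injective f := by
    intro x y hxy
    have := congrArg (fun z : H => (z : E)) hxy
    exact Subtype.ext (Subtype.ext this)
  let ψ : (H.subgroupOf K) →* (ι → G) := φ.comp f
  have hψ : Function.Injective ψ := hφ.comp hf
  obtain ⟨S, hS⟩ := (Group.fg_def.1 hfg)
  have hne : Nonempty κ := by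
    obtain ⟨i, _⟩ := hU 1
    exact ⟨i⟩
  have key : ∀ T : Finset G, ∃ i, (T : Set G) ⊆ F i := by
    intro T
    induction T using Finset.induction_on with
    | empty => exact ⟨hne.some, by simp⟩
    | insert x T _ ih =>
      obtain ⟨i, hi⟩ := ih
      obtain ⟨j, hj⟩ := hU x
      obtain ⟨k, hik, hjk⟩ := hd i j
      refine ⟨k, ?_⟩
      intro y hy
      simp only [Finset.coe_insert, Set.mem_insert_iff] at hy
      rcases hy with rfl | hy
      · exact hjk hj
      · exact hik (hi hy)
  have hι : Fintype ι := Fintype.ofFinite ι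
  obtain ⟨i, hi⟩ := key ((S ×ˢ (Finset.univ : Finset ι)).image (fun p => ψ p.1 p.2))
  have hall : ∀ x : H.subgroupOf K, ∀ c : ι, ψ x c ∈ F i := by
    intro x
    have hx : x ∈ closure (S : Set (H.subgroupOf K)) := by rw [hS]; trivial
    induction hx using closure_induction with
    | mem x hx =>
      intro c
      apply hi
      simp only [Finset.coe_image, Set.mem_image]
      exact ⟨(x, c), by simpa using hx, rfl⟩
    | one => intro c; rw [map_one]; exact one_mem _
    | mul x y _ _ hx hy => intro c; rw [map_mul]; exact mul_mem (hx c) (hy c)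
    | inv x _ hx => intro c; rw [map_inv]; exact inv_mem (hx c)
  let θ : (H.subgroupOf K) →* (ι → F i) :=
    { toFun := fun x c => ⟨ψ x c, hall x c⟩
      map_one' := by funext c; exact Subtype.ext (by simp)
      map_mul' := fun x y => by funext c; exact Subtype.ext (by simp) }
  have hθ : Function.Injective θ := by
    intro x y hxy
    apply hψ
    funext c
    exact congrArg Subtype.val (congrFun hxy c)
  exact hF i K (H.subgroupOf K) hfi ι θ hθ

end Pool.H83Shunkov
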