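import Mathlib

set_option autoImplicit false

namespace Pool.H83Shunkov

open SimpleGraph

section tree

variable {V : Type*} {T : SimpleGraph V}

/-- points on a geodesic are determined by their distance from the initial point -/
theorem geod_unique (hT : T.IsTree) {x y m m' : V} (h : T.dist x m + T.dist m y = T.dist x y)
    (h' : T.dist x m' + T.dist m' y = T.dist x y) (hd : T.dist x m = T.dist x m') : m = m' := by
  obtain ⟨p1, hp1⟩ := hT.connected.exists_walk_length_eq_dist x m
  obtain ⟨p2, hp2⟩ := hT.connected.exists_walk_length_eq_dist m y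
  obtain ⟨q1, hq1⟩ := hT.connected.exists_walk_length_eq_dist x m'
  obtain ⟨q2, hq2⟩ := hT.connected.exists_walk_length_eq_dist m' y
  have hp : (p1.append p2).IsPath := by
    apply Walk.isPath_of_length_eq_dist
    rw [Walk.length_append, hp1, hp2, h]
  have hq : (q1.append q2).IsPath := by
    apply Walk.isPath_of_length_eq_dist
    rw [Walk.length_append, hq1, hq2, h']
  have heq : p1.append p2 = q1.append q2 :=
    congrArg Subtype.val ((hT.isAcyclic.subsingleton_path x y).elim ⟨_, hp⟩ ⟨_, hq⟩)
  have h1 : (p1.append p2).getVert p1.length = m := by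
    rw [Walk.getVert_append, if_neg (lt_irrefl _), Nat.sub_self, Walk.getVert_zero]
  have h2 : (q1.append q2).getVert q1.length = m' := by
    rw [Walk.getVert_append, if_neg (lt_irrefl _), Nat.sub_self, Walk.getVert_zero]
  rw [← h1, ← h2, heq, hp1, hq1, hd]

/-- the next vertex on the way from `x` to `y` -/
theorem exists_next (hT : T.IsTree) {x y : V} (h : x ≠ y) :
    ∃ w, T.Adj x w ∧ T.dist w y + 1 = T.dist x y := by
  obtain ⟨p, hp⟩ := hT.connected.exists_walk_length_eq_dist x y
  cases p with
  | nil => exact absurd rfl h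
  | cons hadj q =>
    rename_i w
    refine ⟨w, hadj, ?_⟩
    have h1 := T.dist_le q
    have h2 := hT.connected.dist_triangle (u := x) (v := w) (w := y)
    have h3 : T.dist x w = 1 := dist_eq_one_iff_adj.2 hadj
    rw [Walk.length_cons] at hp
    omega

theorem median_eq (hT : T.IsTree) {x y y' z m : V} (hadj : T.Adj y y')
    (h1 : T.dist x y' = T.dist x y + 1) (h2 : T.dist y z = T.dist y' z + 1)
    (m1 : T.dist x m + T.dist m y' = T.dist x y') (m2 : T.dist y' m + T.dist m z = T.dist y' z) :
    m = y' := by
  by_contra hne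
  obtain ⟨w, hw, hwd⟩ := exists_next hT (Ne.symm hne)
  have a1 := hT.connected.dist_triangle (u := x) (v := m) (w := w)
  have a2 := hT.connected.dist_triangle (u := x) (v := w) (w := y')
  have a3 := hT.connected.dist_triangle (u := w) (v := m) (w := z)
  have a4 := hT.connected.dist_triangle (u := y') (v := w) (w := z)
  have b1 : T.dist y' w = 1 := dist_eq_one_iff_adj.2 hw
  have b2 : T.dist y y' = 1 := dist_eq_one_iff_adj.2 hadj
  have c1 : T.dist w y' = T.dist y' w := T.dist_comm
  have c2 : T.dist m w = T.dist w m := T.dist_comm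
  have c3 : T.dist m y' = T.dist y' m := T.dist_comm
  have hwy : w = y := by
    apply geod_unique hT (x := x) (y := y')
    · omega
    · omega
    · omega
  rw [hwy] at a3 a4 b1 c1 c2 hwd
  omega

/-- medians exist in trees -/
theorem exists_median (hT : T.IsTree) (x z : V) : ∀ (n : ℕ) (y : V), T.dist y z = n →
    ∃ m, T.dist x m + T.dist m y = T.dist x y ∧ T.dist y m + T.dist m z = T.dist y z ∧
      T.dist x m + T.dist m z = T.dist x z := by
  intro n
  induction n with
  | zero =>
    intro y hy
    have hyz : y = z := (hT.connected.dist_eq_zero_iff).1 hy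
    subst hyz
    exact ⟨y, by simp, by simp, by simp⟩
  | succ n ih =>
    intro y hy
    have hne : y ≠ z := by
      rintro rfl
      simp at hy
    obtain ⟨y', hadj, hd⟩ := exists_next hT hne
    obtain ⟨m, m1, m2, m3⟩ := ih y' (by omega)
    have b2 : T.dist y y' = 1 := dist_eq_one_iff_adj.2 hadj
    rcases hT.dist_eq_dist_add_one_of_adj x hadj with h | h
    · have a1 := hT.connected.dist_triangle (u := y) (v := y') (w := m)
      have a2 := hT.connected.dist_triangle (u := x) (v := m) (w := y)
      have c1 : T.dist m y = T.dist y m := T.dist_comm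
      have c2 : T.dist m y' = T.dist y' m := T.dist_comm
      exact ⟨m, by omega, by omega, m3⟩
    · have hm := median_eq hT hadj h (by omega) m1 m2
      subst hm
      refine ⟨y, by simp, by simp, ?_⟩
      omega

/-- local geodesics are geodesics -/
theorem local_geod (hT : T.IsTree) {x y y' z : V} (hadj : T.Adj y y')
    (h1 : T.dist x y' = T.dist x y + 1) (h2 : T.dist y z = T.dist y' z + 1) :
    T.dist x y' + T.dist y' z = T.dist x z := by
  obtain ⟨m, m1, m2, m3⟩ := exists_median hT x z _ y' rfl
  have hm := median_eq hT hadj h1 h2 m1 m2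
  subst hm
  exact m3

/-- convex sets of vertices -/
def Conv (T : SimpleGraph V) (C : Set V) : Prop :=
  ∀ x ∈ C, ∀ y ∈ C, ∀ m, T.dist x m + T.dist m y = T.dist x y → m ∈ C

theorem Conv.inter {C D : Set V} (hC : Conv T C) (hD : Conv T D) : Conv T (C ∩ D) :=
  fun x hx y hy m hm => ⟨hC x hx.1 y hy.1 m hm, hD x hx.2 y hy.2 m hm⟩

theorem helly_three (hT : T.IsTree) {A B C : Set V} (hA : Conv T A) (hB : Conv T B)
    (hC : Conv T C) (hAB : (A ∩ B).Nonempty) (hBC : (B ∩ C).Nonempty) (hAC : (A ∩ C).Nonempty) :
    (A ∩ B ∩ C).Nonempty := by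
  obtain ⟨x, hxA, hxB⟩ := hAB
  obtain ⟨y, hyB, hyC⟩ := hBC
  obtain ⟨z, hzA, hzC⟩ := hAC
  obtain ⟨m, m1, m2, m3⟩ := exists_median hT x z _ y rfl
  exact ⟨m, ⟨hA x hxA z hzA m m3, hB x hxB y hyB m m1⟩, hC y hyC z hzC m m2⟩

theorem helly (hT : T.IsTree) {κ : Type*} (s : Finset κ) : ∀ (C : κ → Set V),
    (∀ i ∈ s, Conv T (C i)) → (∀ i ∈ s, ∀ j ∈ s, (C i ∩ C j).Nonempty) →
    ∃ v, ∀ i ∈ s, v ∈ C i := by
  classical
  induction s using Finset.induction_on with
  | empty =>
    intro C _ _
    obtain ⟨v⟩ := hT.connected.nonempty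
    exact ⟨v, by simp⟩
  | insert a s ha ih =>
    intro C hC hI
    by_cases hs : s.Nonempty
    · obtain ⟨v, hv⟩ := ih (fun i => C i ∩ C a)
        (fun i hi => (hC i (Finset.mem_insert_of_mem hi)).inter (hC a (Finset.mem_insert_self a s)))
        (by
          intro i hi j hj
          have hi' := Finset.mem_insert_of_mem (b := a) hi
          have hj' := Finset.mem_insert_of_mem (b := a) hj
          have ha' := Finset.mem_insert_self a s
          obtain ⟨v, ⟨h1, h2⟩, h3⟩ := helly_three hT (hC i hi') (hC j hj') (hC a ha')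
            (hI i hi' j hj') (hI j hj' a ha') (hI i hi' a ha')
          exact ⟨v, ⟨h1, h3⟩, h2, h3⟩)
      obtain ⟨i0, hi0⟩ := hs
      refine ⟨v, fun i hi => ?_⟩
      rcases Finset.mem_insert.1 hi with rfl | hi
      · exact (hv i0 hi0).2
      · exact (hv i hi).1
    · rw [Finset.not_nonempty_iff_eq_empty] at hs
      subst hs
      obtain ⟨v, hv, _⟩ := hI a (Finset.mem_insert_self a _) a (Finset.mem_insert_self a _)
      refine ⟨v, fun i hi => ?_⟩
      rcases Finset.mem_insert.1 hi with rfl | hi
      · exact hv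
      · simp at hi

end tree

section action

variable {V : Type*} {T : SimpleGraph V} {G : Type*} [Group G] [MulAction G V]

/-- `G` acts by automorphisms of the graph. -/
def ActsOn (G : Type*) {V : Type*} [Group G] [MulAction G V] (T : SimpleGraph V) : Prop :=
  ∀ (g : G) (v w : V), T.Adj v w → T.Adj (g • v) (g • w)

/-- No element of `G` exchanges the two ends of an edge. -/
def NoInversion (G : Type*) {V : Type*} [Group G] [MulAction G V] (T : SimpleGraph V) : Prop :=
  ∀ (g : G) (v w : V), T.Adj v w → ¬ (g • v = w ∧ g • w = v)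

theorem dist_smul_le (hT : T.Connected) (hA : ActsOn G T) (g : G) (v w : V) :
    T.dist (g • v) (g • w) ≤ T.dist v w := by
  obtain ⟨p, hp⟩ := hT.exists_walk_length_eq_dist v w
  rw [← hp]
  clear hp
  induction p with
  | nil => simp
  | cons hadj q ih =>
    rename_i a b c
    have h1 := hT.dist_triangle (u := g • a) (v := g • b) (w := g • c)
    have h2 : T.dist (g • a) (g • b) = 1 := dist_eq_one_iff_adj.2 (hA g _ _ hadj)
    rw [Walk.length_cons]
    omega

theorem dist_smul (hT : T.Connected) (hA : ActsOn G T) (g : G) (v w : V) :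
    T.dist (g • v) (g • w) = T.dist v w := by
  apply le_antisymm (dist_smul_le hT hA g v w)
  have := dist_smul_le hT hA g⁻¹ (g • v) (g • w)
  simpa using this

theorem conv_fix (hT : T.IsTree) (hA : ActsOn G T) (g : G) : Conv T {v : V | g • v = v} := by
  intro x hx y hy m hm
  have hx' : g • x = x := hx
  have hy' : g • y = y := hy
  show g • m = m
  have h1 : T.dist x (g • m) = T.dist x m := by
    conv_lhs => rw [← hx']
    exact dist_smul hT.connected hA g x m
  have h2 : T.dist (g • m) y = T.dist m y := by
    conv_lhs => rw [← hy']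
    exact dist_smul hT.connected hA g m y
  exact geod_unique hT (x := x) (y := y) (by rw [h1, h2, hm]) hm h1

/-- the midpoint of `[z, g z]` is fixed if `g` has a fixed vertex -/
theorem midpoint_fixed (hT : T.IsTree) (hA : ActsOn G T) {g : G} {f : V} (hf : g • f = f) (z : V) :
    ∃ m, g • m = m ∧ T.dist z m + T.dist m (g • z) = T.dist z (g • z) ∧
      T.dist z m = T.dist m (g • z) := by
  obtain ⟨m, m1, m2, m3⟩ := exists_median hT z f _ (g • z) rfl
  have h1 : T.dist f (g • z) = T.dist f z := by
    conv_lhs => rw [← hf]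
    exact dist_smul hT.connected hA g f z
  have c1 : T.dist m f = T.dist f m := T.dist_comm
  have c2 : T.dist z f = T.dist f z := T.dist_comm
  have c3 : T.dist (g • z) f = T.dist f (g • z) := T.dist_comm
  have c4 : T.dist (g • z) m = T.dist m (g • z) := T.dist_comm
  have h2 : T.dist f (g • m) = T.dist f m := by
    conv_lhs => rw [← hf]
    exact dist_smul hT.connected hA g f m
  have h3 : T.dist (g • m) (g • z) = T.dist m z := dist_smul hT.connected hA g m z
  have c5 : T.dist m z = T.dist z m := T.dist_comm
  refine ⟨m, ?_, m1, by omega⟩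
  exact geod_unique hT (x := f) (y := g • z) (by omega) (by omega) h2

/-- Serre: if `s` and `t` have fixed vertices and `s z = t z` for some `z` then they have a common
fixed vertex. -/
theorem common_fixed (hT : T.IsTree) (hA : ActsOn G T) {s t : G} {f f' z : V} (hs : s • f = f)
    (ht : t • f' = f') (hz : s • z = t • z) : ∃ v : V, s • v = v ∧ t • v = v := by
  obtain ⟨m, h1, h2, h3⟩ := midpoint_fixed hT hA hs z
  obtain ⟨m', h1', h2', h3'⟩ := midpoint_fixed hT hA ht z
  rw [← hz] at h2' h3'
  have : m = m' := geod_unique hT h2 h2' (by omega)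
  subst this
  exact ⟨m, h1, h1'⟩

/-- an element of finite order of a group acting without inversions on a tree fixes a vertex -/
theorem exists_fixed (hT : T.IsTree) (hA : ActsOn G T) (hN : NoInversion G T) {g : G}
    (hg : IsOfFinOrder g) : ∃ v : V, g • v = v := by
  classical
  obtain ⟨n, hn, hgn⟩ := isOfFinOrder_iff_pow_eq_one.1 hg
  obtain ⟨v0⟩ := hT.connected.nonempty
  let S : Finset V := (Finset.range n).image (fun i => g ^ i • v0)
  have hS : ∀ v ∈ S, g • v ∈ S := by
    intro v hv
    obtain ⟨i, hi, rfl⟩ := Finset.mem_image.1 hv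
    rw [smul_smul, ← pow_succ']
    by_cases h : i + 1 < n
    · exact Finset.mem_image.2 ⟨i + 1, Finset.mem_range.2 h, rfl⟩
    · have : i + 1 = n := by
        have := Finset.mem_range.1 hi
        omega
      rw [this, hgn]
      exact Finset.mem_image.2 ⟨0, Finset.mem_range.2 hn, by simp⟩
  have hS' : ∀ v, g⁻¹ • v ∈ S → v ∈ S := fun v hv => by
    have := hS _ hv
    simpa using this
  have hSinv : ∀ v ∈ S, g⁻¹ • v ∈ S := by
    intro v hv
    have h1 : g⁻¹ = g ^ (n - 1) := by
      rw [inv_eq_iff_mul_eq_one, ← pow_succ', Nat.sub_add_cancel hn, hgn]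
    rw [h1]
    have : ∀ k : ℕ, g ^ k • v ∈ S := by
      intro k
      induction k with
      | zero => simpa using hv
      | succ k ih => rw [pow_succ', mul_smul]; exact hS _ ih
    exact this _
  have hv0 : v0 ∈ S := Finset.mem_image.2 ⟨0, Finset.mem_range.2 hn, by simp⟩
  let r : V → ℕ := fun v => S.sup (fun s => T.dist v s)
  obtain ⟨c, hc⟩ : ∃ c, ∀ v, r c ≤ r v := by
    obtain ⟨c, _, hc⟩ := WellFounded.has_min (measure r).wf Set.univ ⟨v0, trivial⟩
    exact ⟨c, fun v => not_lt.1 (hc v trivial)⟩
  have hrg : ∀ v, r (g • v) ≤ r v := by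
    intro v
    apply Finset.sup_le
    intro s hs
    have h1 : T.dist (g • v) s = T.dist v (g⁻¹ • s) := by
      have := dist_smul hT.connected hA g v (g⁻¹ • s)
      rw [smul_inv_smul] at this
      exact this
    rw [h1]
    exact Finset.le_sup (f := fun s => T.dist v s) (hSinv s hs)
  -- two minimizers are at distance at most one
  have key : ∀ c', r c' ≤ r c → T.dist c c' ≤ 1 := by
    intro c' hc'
    by_contra hlt
    push Not at hlt
    have hne : c ≠ c' := by
      rintro rfl
      simp at hlt
    obtain ⟨m, hadj, hd⟩ := exists_next hT hne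
    have hm : r m < r c := by
      have h0 : 0 < r c := by
        by_contra h0
        have h00 : r c = 0 := by omega
        have h1 : T.dist c v0 ≤ r c := Finset.le_sup (f := fun s => T.dist c s) hv0
        have h2 : T.dist c' v0 ≤ r c' := Finset.le_sup (f := fun s => T.dist c' s) hv0
        have h3 := hT.connected.dist_triangle (u := c) (v := v0) (w := c')
        have h4 : T.dist v0 c' = T.dist c' v0 := T.dist_comm
        omega
      rw [Finset.sup_lt_iff h0]
      intro s hs
      have h1 : T.dist c s ≤ r c := Finset.le_sup (f := fun s => T.dist c s) hs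
      have h2 : T.dist c' s ≤ r c' := Finset.le_sup (f := fun s => T.dist c' s) hs
      have d1 : T.dist s c = T.dist c s := T.dist_comm
      have d2 : T.dist s m = T.dist m s := T.dist_comm
      have d3 : T.dist s c' = T.dist c' s := T.dist_comm
      rcases hT.dist_eq_dist_add_one_of_adj s hadj with h | h
      · omega
      · have h5 := local_geod hT (x := s) (z := c') hadj h (by omega)
        omega
    exact absurd (hc m) (by omega)
  have hc1 := key (g • c) (hrg c)
  have hc2 := key (g • g • c) ((hrg _).trans (hrg c))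
  by_contra hcon
  push Not at hcon
  have hne1 : T.dist c (g • c) ≠ 0 := by
    intro h
    exact hcon c ((hT.connected.dist_eq_zero_iff).1 h).symm
  have hadj1 : T.Adj c (g • c) := dist_eq_one_iff_adj.1 (by omega)
  by_cases h0 : T.dist c (g • g • c) = 0
  · have h1 : g • g • c = c := ((hT.connected.dist_eq_zero_iff).1 h0).symm
    exact hN g c (g • c) hadj1 ⟨rfl, h1⟩
  · have hadj2 : T.Adj (g • c) (g • g • c) := hA g _ _ hadj1
    exact hT.dist_ne_of_adj c hadj2 (by omega)

end action

end Pool.H83Shunkov
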