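import Pool.Agent.Helper83.Shunkov.Ext
import Pool.Agent.Helper83.Shunkov.Tree

set_option autoImplicit false

namespace Pool.H83Shunkov

open Subgroup

/-- In a group acting without inversions on a tree, a finite set `U` of elements such that all
elements `u` and all quotients `u⁻¹ u'` have finite order has a common fixed vertex. -/
theorem common_fixed_finset {G : Type*} {V : Type*} [Group G] [MulAction G V] {T : SimpleGraph V}
    (hT : T.IsTree) (hA : ActsOn G T) (hN : NoInversion G T) (U : Finset G)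
    (h1 : ∀ u ∈ U, IsOfFinOrder u) (h2 : ∀ u ∈ U, ∀ u' ∈ U, IsOfFinOrder (u⁻¹ * u')) :
    ∃ v : V, ∀ u ∈ U, u • v = v := by
  obtain ⟨v, hv⟩ := helly hT U (fun u => {v : V | u • v = v}) (fun u _ => conv_fix hT hA u)
    (by
      intro u hu u' hu'
      obtain ⟨f, hf⟩ := exists_fixed hT hA hN (h1 u hu)
      obtain ⟨f', hf'⟩ := exists_fixed hT hA hN (h1 u' hu')
      obtain ⟨z, hz⟩ := exists_fixed hT hA hN (h2 u hu u' hu')
      have hz' : u • z = u' • z := by
        rw [mul_smul, inv_smul_eq_iff] at hz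
        exact hz.symm
      obtain ⟨v, hv, hv'⟩ := common_fixed hT hA hf hf' hz'
      exact ⟨v, hv, hv'⟩)
  exact ⟨v, hv⟩

/-- The core of the tree step: `E = H ⟨a⟩`. -/
theorem tree_core {E G : Type} [Group E] [Group G] {V : Type} [MulAction G V] {T : SimpleGraph V}
    (hT : T.IsTree) (hA : ActsOn G T) (hN : NoInversion G T)
    (hst : ∀ v : V, Good (MulAction.stabilizer G v)) (H : Subgroup E) [hHn : H.Normal]
    (ι : Type) [Finite ι] (φ : H →* (ι → G)) (hφ : Function.Injective φ) (a : E)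
    (ha : PairFinite a) (htop : H ⊔ zpowers a = ⊤) : a ∈ lfRad E := by
  classical
  -- elements of `E` are of the form `a ^ i * h`
  have hdec : ∀ e : E, ∃ (i : ℤ) (h : E), h ∈ H ∧ e = a ^ i * h := by
    intro e
    have he : e ∈ zpowers a ⊔ H := by rw [sup_comm, htop]; trivial
    rw [mem_sup_of_normal_right] at he
    obtain ⟨y, hy, z, hz, rfl⟩ := he
    obtain ⟨i, rfl⟩ := mem_zpowers_iff.1 hy
    exact ⟨i, z, hz, rfl⟩
  have hconj : ∀ e : E, ∃ h ∈ H, e⁻¹ * a * e = h⁻¹ * a * h := by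
    intro e
    obtain ⟨i, h, hh, rfl⟩ := hdec e
    refine ⟨h, hh, ?_⟩
    rw [mul_inv_rev]
    have : (a ^ i)⁻¹ * a * a ^ i = a := by
      rw [mul_assoc, ← zpow_one_add, add_comm, zpow_add_one]
      group
    calc h⁻¹ * (a ^ i)⁻¹ * a * (a ^ i * h) = h⁻¹ * ((a ^ i)⁻¹ * a * a ^ i) * h := by group
      _ = h⁻¹ * a * h := by rw [this]
  -- finitely many conjugates of `a` generate a finite group
  have key : ∀ S : Finset E, (∀ x ∈ S, ∃ g, g⁻¹ * a * g = x) →
      ((closure (S : Set E) : Subgroup E) : Set E).Finite := by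
    intro S hS
    obtain ⟨n, hn, han⟩ := isOfFinOrder_iff_pow_eq_one.1 ha.isOfFinOrder
    -- the set of elements `a⁻¹ x'`, `x' = a^{-s} x a^s`
    let U : Finset E := (S ×ˢ Finset.range n).image
      (fun p => a⁻¹ * ((a ^ p.2)⁻¹ * p.1 * a ^ p.2))
    have hUmem : ∀ u, u ∈ U ↔ ∃ x ∈ S, ∃ s, s < n ∧ a⁻¹ * ((a ^ s)⁻¹ * x * a ^ s) = u := by
      intro u
      simp only [U, Finset.mem_image, Finset.mem_product, Finset.mem_range, Prod.exists]
      constructor
      · rintro ⟨x, s, ⟨hx, hs⟩, h⟩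
        exact ⟨x, hx, s, hs, h⟩
      · rintro ⟨x, hx, s, hs, h⟩
        exact ⟨x, s, ⟨hx, hs⟩, h⟩
    -- every element of `U` is `a⁻¹` times a conjugate of `a`
    have hUconj : ∀ u ∈ U, ∃ g, u = a⁻¹ * (g⁻¹ * a * g) := by
      intro u hu
      obtain ⟨x, hx, s, _, rfl⟩ := (hUmem u).1 hu
      obtain ⟨g, rfl⟩ := hS x hx
      refine ⟨g * a ^ s, ?_⟩
      group
    have hUH : ∀ u ∈ U, u ∈ H := by
      intro u hu
      obtain ⟨g, rfl⟩ := hUconj u hu
      obtain ⟨h, hh, he⟩ := hconj g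
      rw [he]
      exact comm_mem a hh
    have hUfin : ∀ u ∈ U, IsOfFinOrder u := by
      intro u hu
      obtain ⟨g, rfl⟩ := hUconj u hu
      apply isOfFinOrder_of_mem_finite (ha g)
      exact mul_mem (inv_mem (subset_closure (by simp))) (subset_closure (by simp))
    have hUfin2 : ∀ u ∈ U, ∀ u' ∈ U, IsOfFinOrder (u⁻¹ * u') := by
      intro u hu u' hu'
      obtain ⟨g, rfl⟩ := hUconj u hu
      obtain ⟨g', rfl⟩ := hUconj u' hu'
      have : (a⁻¹ * (g⁻¹ * a * g))⁻¹ * (a⁻¹ * (g'⁻¹ * a * g')) =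
          (g⁻¹ * a * g)⁻¹ * (g'⁻¹ * a * g') := by group
      rw [this]
      apply isOfFinOrder_of_mem_finite (ha.conj_pair g g')
      exact mul_mem (inv_mem (subset_closure (by simp))) (subset_closure (by simp))
    -- the subgroup generated by `U`
    obtain ⟨K0, hK0⟩ : ∃ K0 : Subgroup E, K0 = closure (U : Set E) := ⟨_, rfl⟩
    have hK0H : K0 ≤ H := by
      rw [hK0, closure_le]
      exact fun u hu => hUH u hu
    -- fixed vertices
    have hfix : ∀ c : ι, ∃ v : V, ∀ (x : E) (hx : x ∈ K0), φ ⟨x, hK0H hx⟩ c • v = v := by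
      intro c
      obtain ⟨v, hv⟩ := common_fixed_finset hT hA hN
        (U.attach.image (fun u : {x // x ∈ U} => φ (⟨u.1, hUH u.1 u.2⟩ : H) c)) (by
          intro y hy
          obtain ⟨u, _, rfl⟩ := Finset.mem_image.1 hy
          have h1 : IsOfFinOrder (⟨u.1, hUH u.1 u.2⟩ : H) := by
            obtain ⟨m, hm, h'⟩ := isOfFinOrder_iff_pow_eq_one.1 (hUfin u.1 u.2)
            exact isOfFinOrder_iff_pow_eq_one.2 ⟨m, hm, Subtype.ext (by simpa using h')⟩
          exact MonoidHom.isOfFinOrder ((Pi.evalMonoidHom (fun _ : ι => G) c).comp φ) h1) (by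
          intro y hy y' hy'
          obtain ⟨u, _, rfl⟩ := Finset.mem_image.1 hy
          obtain ⟨u', _, rfl⟩ := Finset.mem_image.1 hy'
          have h1 : IsOfFinOrder ((⟨u.1, hUH u.1 u.2⟩ : H)⁻¹ * ⟨u'.1, hUH u'.1 u'.2⟩) := by
            obtain ⟨m, hm, h'⟩ := isOfFinOrder_iff_pow_eq_one.1 (hUfin2 u.1 u.2 u'.1 u'.2)
            exact isOfFinOrder_iff_pow_eq_one.2 ⟨m, hm, Subtype.ext (by simpa using h')⟩
          have h2 := MonoidHom.isOfFinOrder ((Pi.evalMonoidHom (fun _ : ι => G) c).comp φ) h1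
          rw [map_mul, map_inv] at h2
          exact h2)
      refine ⟨v, ?_⟩
      have hle : K0 ≤ (((MulAction.stabilizer G v).comap
          ((Pi.evalMonoidHom (fun _ : ι => G) c).comp φ)).map H.subtype) := by
        rw [hK0, closure_le]
        intro u hu
        refine ⟨⟨u, hUH u hu⟩, ?_, rfl⟩
        exact hv _ (Finset.mem_image.2 ⟨⟨u, hu⟩, Finset.mem_attach _ _, rfl⟩)
      intro x hx
      obtain ⟨y, hy, hyx⟩ := hle hx
      have hy' : y = ⟨x, hK0H hx⟩ := Subtype.ext hyx
      subst hy'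
      exact hy
    choose v hv using hfix
    -- `a` normalizes `K0`
    have hnorm : ∀ u ∈ U, a⁻¹ * u * a ∈ U := by
      intro u hu
      obtain ⟨x, hx, s, hs, rfl⟩ := (hUmem u).1 hu
      rw [hUmem]
      by_cases hsn : s + 1 < n
      · refine ⟨x, hx, s + 1, hsn, ?_⟩
        rw [pow_succ]
        group
      · have hsn' : s + 1 = n := by omega
        refine ⟨x, hx, 0, hn, ?_⟩
        have h1 : a ^ s * a = 1 := by rw [← pow_succ, hsn', han]
        have h2 : a⁻¹ * (a ^ s)⁻¹ = 1 := by rw [← mul_inv_rev, h1, inv_one]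
        calc a⁻¹ * ((a ^ 0)⁻¹ * x * a ^ 0) = a⁻¹ * x := by simp
          _ = a⁻¹ * (a⁻¹ * (a ^ s)⁻¹) * x * (a ^ s * a) := by rw [h1, h2, mul_one, mul_one]
          _ = a⁻¹ * (a⁻¹ * ((a ^ s)⁻¹ * x * a ^ s)) * a := by group
    have hnormK : ∀ x ∈ K0, a⁻¹ * x * a ∈ K0 := by
      intro x hx
      rw [hK0] at hx ⊢
      induction hx using closure_induction with
      | mem u hu => exact subset_closure (hnorm u hu)
      | one => simp
      | mul x y _ _ hx hy =>
        have : a⁻¹ * (x * y) * a = (a⁻¹ * x * a) * (a⁻¹ * y * a) := by group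
        rw [this]
        exact mul_mem hx hy
      | inv x _ hx =>
        have : a⁻¹ * x⁻¹ * a = (a⁻¹ * x * a)⁻¹ := by group
        rw [this]
        exact inv_mem hx
    have hnormK2 : ∀ (i : ℕ), ∀ x ∈ K0, (a ^ i)⁻¹ * x * a ^ i ∈ K0 := by
      intro i
      induction i with
      | zero => intro x hx; simpa using hx
      | succ i ih =>
        intro x hx
        have := hnormK _ (ih x hx)
        have h1 : (a ^ (i + 1))⁻¹ * x * a ^ (i + 1) = a⁻¹ * ((a ^ i)⁻¹ * x * a ^ i) * a := by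
          rw [pow_succ]; group
        rw [h1]
        exact this
    have hnormK3 : ∀ x ∈ K0, a * x * a⁻¹ ∈ K0 := by
      intro x hx
      have := hnormK2 (n - 1) _ hx
      have h1 : a ^ (n - 1) = a⁻¹ := by
        rw [eq_inv_iff_mul_eq_one, ← pow_succ, Nat.sub_add_cancel hn, han]
      rw [h1, inv_inv] at this
      exact this
    have hnormZ : ∀ (i : ℤ), ∀ x ∈ K0, (a ^ i)⁻¹ * x * a ^ i ∈ K0 := by
      intro i
      induction i using Int.induction_on with
      | zero => intro x hx; simpa using hx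
      | succ i ih =>
        intro x hx
        have h1 : (a ^ ((i : ℤ) + 1))⁻¹ * x * a ^ ((i : ℤ) + 1) =
            a⁻¹ * ((a ^ (i : ℤ))⁻¹ * x * a ^ (i : ℤ)) * a := by
          rw [zpow_add_one]; group
        rw [h1]
        exact hnormK _ (ih x hx)
      | pred i ih =>
        intro x hx
        have h1 : (a ^ (-(i : ℤ) - 1))⁻¹ * x * a ^ (-(i : ℤ) - 1) =
            a * ((a ^ (-(i : ℤ)))⁻¹ * x * a ^ (-(i : ℤ))) * a⁻¹ := by
          rw [zpow_sub_one]; group
        rw [h1]
        exact hnormK3 _ (ih x hx)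
    -- the group `K1 = ⟨a⟩ K0`
    let K1 : Subgroup E :=
      { carrier := {x | ∃ i : ℤ, ∃ k ∈ K0, x = a ^ i * k}
        mul_mem' := by
          rintro x y ⟨i, k, hk, rfl⟩ ⟨j, l, hl, rfl⟩
          refine ⟨i + j, (a ^ j)⁻¹ * k * a ^ j * l, mul_mem (hnormZ j k hk) hl, ?_⟩
          rw [zpow_add]; group
        one_mem' := ⟨0, 1, one_mem _, by simp⟩
        inv_mem' := by
          rintro x ⟨i, k, hk, rfl⟩
          refine ⟨-i, (a ^ (-i))⁻¹ * k⁻¹ * a ^ (-i), hnormZ (-i) _ (inv_mem hk), ?_⟩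
          group }
    have haK1 : a ∈ K1 := ⟨1, 1, one_mem _, by simp⟩
    have hfi : (K0.subgroupOf K1).FiniteIndex := by
      have hfz : Finite (zpowers a) := finite_zpowers.2 ha.isOfFinOrder
      have hzK1 : ∀ z ∈ zpowers a, z ∈ K1 := by
        intro z hz
        obtain ⟨i, rfl⟩ := mem_zpowers_iff.1 hz
        exact ⟨i, 1, one_mem _, by simp⟩
      have hfq : Finite (K1 ⧸ K0.subgroupOf K1) := by
        apply Finite.of_surjective
          (fun z : zpowers a => ((⟨z.1, hzK1 z.1 z.2⟩ : K1) : K1 ⧸ K0.subgroupOf K1))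
        intro q
        obtain ⟨⟨k, hk⟩, rfl⟩ := QuotientGroup.mk_surjective q
        obtain ⟨i, x, hx, hkx⟩ := id hk
        refine ⟨⟨a ^ i, zpow_mem_zpowers a i⟩, ?_⟩
        rw [QuotientGroup.eq]
        show (a ^ i)⁻¹ * k ∈ K0
        rw [hkx, inv_mul_cancel_left]
        exact hx
      exact finiteIndex_iff_finite_quotient.2 hfq
    have hXK1 : X K1 := by
      let f : (K0.subgroupOf K1) →* (Unit → ∀ c, MulAction.stabilizer G (v c)) :=
        { toFun := fun x _ c => ⟨φ ⟨((x : K1) : E), hK0H x.2⟩ c, hv c _ x.2⟩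
          map_one' := by
            funext _ c
            apply Subtype.ext
            exact congrFun (map_one φ) c
          map_mul' := fun x y => by
            funext _ c
            apply Subtype.ext
            exact congrFun (map_mul φ ⟨((x : K1) : E), hK0H x.2⟩ ⟨((y : K1) : E), hK0H y.2⟩) c }
      have hf : Function.Injective f := by
        intro x y hxy
        have h1 : φ ⟨((x : K1) : E), hK0H x.2⟩ = φ ⟨((y : K1) : E), hK0H y.2⟩ := by
          funext c
          exact congrArg Subtype.val (congrFun (congrFun hxy ()) c)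
        have h2 := congrArg (fun z : H => (z : E)) (hφ h1)
        exact Subtype.ext (Subtype.ext h2)
      exact good_pi (fun c => MulAction.stabilizer G (v c)) (fun c => hst (v c)) K1 _ hfi Unit f hf
    have hSK1 : ∀ x ∈ S, x ∈ K1 := by
      intro x hx
      refine ⟨1, a⁻¹ * x, ?_, by simp⟩
      rw [hK0]
      apply Subgroup.subset_closure
      exact (hUmem _).2 ⟨x, hx, 0, hn, by simp⟩
    have hlf : IsLocFin ((lfRad K1).map K1.subtype) := isLocFin_lfRad.map _
    apply hlf
    intro x hx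
    have hx1 : x ∈ S := hx
    refine ⟨⟨x, hSK1 x hx1⟩, ?_, rfl⟩
    apply hXK1
    apply PairFinite.subgroup
    obtain ⟨g, rfl⟩ := hS x hx1
    intro y
    have h1 := ha.conj_pair g (g * y)
    have h2 : (g * y)⁻¹ * a * (g * y) = y⁻¹ * (g⁻¹ * a * g) * y := by group
    rw [h2] at h1
    exact h1
  rw [mem_lfRad]
  intro S hS
  obtain ⟨t, ht, hSt⟩ := subset_closure_finset (s := Group.conjugatesOfSet ({a} : Set E)) S hS
  have h1 := key t (by
    intro x hx
    have := ht hx
    simp only [Group.mem_conjugatesOfSet_iff, Set.mem_singleton_iff, exists_eq_left] at this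
    obtain ⟨c, hc⟩ := isConj_iff.1 this
    exact ⟨c⁻¹, by simpa using hc⟩)
  exact h1.subset ((closure_le _).2 hSt)

theorem good_tree (G : Type) [Group G] {V : Type} [MulAction G V] (T : SimpleGraph V)
    (hT : T.IsTree) (hA : ActsOn G T) (hN : NoInversion G T)
    (hst : ∀ v : V, Good (MulAction.stabilizer G v)) : Good G := by
  apply good_of_normal
  intro E _ H hHn hH ι _ φ hφ a ha
  have ha1 : a ∈ H ⊔ zpowers a := mem_sup_right (mem_zpowers a)
  apply mem_lfRad_of_sup_zpowers hH ha.isOfFinOrder ha1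
  obtain ⟨E1, hE1⟩ : ∃ E1 : Subgroup E, E1 = H ⊔ zpowers a := ⟨_, rfl⟩
  have haE1 : a ∈ E1 := by rw [hE1]; exact ha1
  have hHE : H ≤ E1 := by rw [hE1]; exact le_sup_left
  have main : (⟨a, haE1⟩ : E1) ∈ lfRad E1 := by
    let f : (H.subgroupOf E1) →* H :=
      { toFun := fun x => ⟨((x : E1) : E), x.2⟩
        map_one' := rfl
        map_mul' := fun _ _ => rfl }
    have hf : Function.Injective f := by
      intro x y hxy
      have := congrArg (fun z : H => (z : E)) hxy
      exact Subtype.ext (Subtype.ext this)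
    apply tree_core hT hA hN hst (H.subgroupOf E1) ι (φ.comp f) (hφ.comp hf) ⟨a, haE1⟩
      (ha.subgroup haE1)
    apply Subgroup.map_injective E1.subtype_injective
    rw [Subgroup.map_sup, subgroupOf_map_subtype, MonoidHom.map_zpowers,
      ← MonoidHom.range_eq_map, Subgroup.range_subtype, inf_eq_left.2 hHE]
    exact hE1.symm
  subst hE1
  exact main

end Pool.H83Shunkov
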